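import Pool.Agent.MP_a88b1d_nt.H42.Spec

open Polynomial

noncomputable section

namespace Pool.Agent.MP_a88b1d_nt.H64

open Pool.Agent.MP_a88b1d_nt.H42

variable {C : Type} [NontriviallyNormedField C] [Algebra (ZMod 2) C]

theorem det_ne (g : GL (Fin 2) A) : g.1.det ≠ 0 := (Matrix.isUnits_det_units g).ne_zero

theorem det_v (i : ℕ) : (!![X ^ i, 0; 0, 1] : M2 A).det = X ^ i := by simp [Matrix.det_fin_two]

theorem det_v' (i : ℕ) : (!![X ^ i, 0; 0, 1] : M2 A).det ≠ 0 := by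
  rw [det_v]; exact pow_ne_zero _ X_ne_zero

theorem det_s (k : Fin 3) : (stA k).det = X := by
  fin_cases k <;> simp [stA, Matrix.det_fin_two]

variable {T : C}

theorem rv (hm : PM T) (g : GL (Fin 2) A) (i : ℕ) :
    rG T g * vv T i = pm T (g.1 * !![X ^ i, 0; 0, 1]) := by
  rw [hm.rg, vv, hm.mul _ _ (det_ne g) (det_v' i)]

theorem vs (hm : PM T) (i : ℕ) (k : Fin 3) :
    vv T i * st T k = pm T (!![X ^ i, 0; 0, 1] * stA k) := by
  rw [vv, st, hm.mul _ _ (det_v' i) (by rw [det_s]; exact X_ne_zero)]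

theorem v_succ (hm : PM T) (i : ℕ) : vv T i * st T 2 = vv T (i + 1) := by
  rw [vs hm, vv]; congr 1; simp [stA, pow_succ]

theorem nd (i : ℕ) : (X ^ i * X : A).natDegree = i + 1 := by rw [← pow_succ, natDegree_X_pow]

theorem fixU (hm : PM T) {b : A} {i : ℕ} (h : b.natDegree ≤ i) :
    dd T (rG T (UU b) * vv T i) (vv T i) = 0 := by
  rw [rv hm, vv]
  refine hm.zero _ _ (by simp [UU, Matrix.det_fin_two]) (det_v' i) fun a c => ?_
  fin_cases a <;> fin_cases c <;> simp [UU, Matrix.det_fin_two, Matrix.adjugate_fin_two] <;> omega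

theorem s0 (hm : PM T) (i : ℕ) : dd T (vv T (i + 1) * st T 0) (vv T i) = 0 := by
  rw [vs hm, vv]
  refine hm.zero _ _ (by simp [stA, Matrix.det_fin_two]) (det_v' i) fun a c => ?_
  fin_cases a <;> fin_cases c <;>
    simp [stA, Matrix.det_fin_two, Matrix.adjugate_fin_two, ← pow_succ, ← pow_succ'] <;> omega

theorem s1 (hm : PM T) (i : ℕ) :
    dd T (vv T (i + 1) * st T 1) (rG T (UU (X ^ (i + 1))) * vv T i) = 0 := by
  rw [vs hm, rv hm]
  refine hm.zero _ _ (by simp [stA, Matrix.det_fin_two]) (by simp [UU, Matrix.det_fin_two])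
    fun a c => ?_
  fin_cases a <;> fin_cases c <;>
    simp [stA, UU, Matrix.det_fin_two, Matrix.adjugate_fin_two, ← pow_succ, ← pow_succ'] <;> omega

theorem w0 (hm : PM T) : dd T (vv T 0) (rG T WW * vv T 0) = 0 := by
  rw [rv hm, vv]
  refine hm.zero _ _ (det_v' 0) (by simp [WW, Matrix.det_fin_two]) fun a c => ?_
  fin_cases a <;> fin_cases c <;> simp [WW, Matrix.det_fin_two, Matrix.adjugate_fin_two]

theorem w1 (hm : PM T) : dd T (vv T 0 * st T 0) (rG T WW * vv T 1) = 0 := by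
  rw [vs hm, rv hm]
  refine hm.zero _ _ (by simp [stA, Matrix.det_fin_two]) (by simp [WW, Matrix.det_fin_two])
    fun a c => ?_
  fin_cases a <;> fin_cases c <;> simp [stA, WW, Matrix.det_fin_two, Matrix.adjugate_fin_two]

theorem w2 (hm : PM T) : dd T (vv T 0) (rG T (UU (X ^ 0) * WW) * vv T 0) = 0 := by
  rw [rv hm, vv]
  refine hm.zero _ _ (det_v' 0) (by simp [UU, WW, Matrix.det_fin_two]) fun a c => ?_
  fin_cases a <;> fin_cases c <;> simp [UU, WW, Matrix.det_fin_two, Matrix.adjugate_fin_two]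

theorem w3 (hm : PM T) : dd T (vv T 0 * st T 1) (rG T (UU (X ^ 0) * WW) * vv T 1) = 0 := by
  rw [vs hm, rv hm]
  refine hm.zero _ _ (by simp [stA, Matrix.det_fin_two]) (by simp [UU, WW, Matrix.det_fin_two])
    fun a c => ?_
  fin_cases a <;> fin_cases c <;> simp [stA, UU, WW, Matrix.det_fin_two, Matrix.adjugate_fin_two]

theorem lowv (hm : PM T) (h : GL (Fin 2) A) (i : ℕ) : i ≤ dd T (vv T i) (rG T h) := by
  have u : h.1.det.natDegree = 0 := natDegree_eq_zero_of_isUnit (Matrix.isUnits_det_units h)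
  obtain ⟨j, hj⟩ : ∃ j, h.1 1 j ≠ 0 := by
    by_contra k
    push Not at k
    exact det_ne h (by rw [Matrix.det_fin_two, k, k]; simp)
  have e : ((!![X ^ i, 0; 0, 1] : M2 A).adjugate * h.1) 1 j = X ^ i * h.1 1 j := by
    simp [Matrix.adjugate_fin_two, Matrix.mul_apply, Fin.sum_univ_two]
  rw [hm.rg, vv]
  refine hm.low _ _ 1 j i (det_v' i) (det_ne h) (e ▸ mul_ne_zero (pow_ne_zero _ X_ne_zero) hj) ?_
  rw [e, det_v, u, natDegree_mul (pow_ne_zero _ X_ne_zero) hj, natDegree_X_pow]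
  omega

theorem eq1 (T : C) (_hT : 1 < ‖T‖) (hp : PA) (ht : TREE T) (hm : PM T) (hq : PT) : EQ1 T := by
  intro μ f hf
  have t := ht.tree
  have api := hp _ (dd T) (st T) _ (r0 T (pp * qq)) t (hm.good0 _).2
  let E : GL (Fin 2) A → ℕ → ℤ := fun g i => Psi (dd T) (r0 T (pp * qq)) (rG T g * vv T i)
    (rG T g * vv T (i + 1)) 1 (r0 T (pp * qq) μ)
  have cg : ∀ (g : GL (Fin 2) A) {x y x' y'}, dd T x x' = 0 → dd T y y' = 0 →
      Psi (dd T) (r0 T (pp * qq)) (rG T g * x) (rG T g * y) 1 (r0 T (pp * qq) μ)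
        = Psi (dd T) (r0 T (pp * qq)) (rG T g * x') (rG T g * y') 1 (r0 T (pp * qq) μ) :=
    fun g _ _ _ _ a b => api.congr _ _ _ _ _ _ _ _ (by rwa [t.inv]) (by rwa [t.inv]) (t.self _) (t.self _)
  have inv : ∀ i k P, k ≤ i → k ≤ 7 → Valid P → f i (addT k P) = f i P := fun i k P h1 h2 h3 => by
    obtain ⟨g, hg⟩ := hq.surj P h3
    rw [hf i _ _ (hq.actU k P g h2 hg), hf i _ _ hg, map_mul, mul_assoc, mul_assoc]
    exact cg g (fixU hm (by simpa using h1)) (fixU hm (by simp; omega))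
  have step : ∀ g i, E g (i + 1) = E g i + E (g * UU (X ^ (i + 1))) i := fun g i => by
    have h := api.harm μ (rG T g * vv T (i + 1))
    rw [Fin.sum_univ_three, mul_assoc, mul_assoc, mul_assoc, v_succ hm, cg g (t.self _) (s0 hm i),
      cg g ((t.comm _ _).trans (fixU hm (b := X ^ (i + 1)) (by simp))) (s1 hm i), api.anti,
      api.anti (rG T g * (rG T (UU (X ^ (i + 1))) * vv T i))] at h
    simp only [E, map_mul, mul_assoc]
    linarith
  refine ⟨inv, fun P hP => ?_, fun i P hi hP => ?_, fun i P hi hP => ?_⟩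
  · obtain ⟨g, hg⟩ := hq.surj P hP
    have h := api.harm μ (rG T g * vv T 0)
    rw [Fin.sum_univ_three, mul_assoc, mul_assoc, mul_assoc, v_succ hm] at h
    have a := cg g (w0 hm) (w1 hm)
    have b := cg g (w2 hm) (w3 hm)
    rw [hf 0 _ _ hg, hf 0 _ _ (hq.actW _ _ hg), hf 0 _ _ (hq.actW _ _ (hq.actU 0 P g (by norm_num) hg))]
    simp only [map_mul, mul_assoc, zero_add] at a b h ⊢
    linarith
  · obtain ⟨g, hg⟩ := hq.surj P hP
    rw [hf _ _ _ hg, hf _ _ _ hg, hf _ _ _ (hq.actU _ P g hi hg)]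
    exact step g i
  · obtain ⟨g, hg⟩ := hq.surj P hP
    have two : ∀ j, f (i + j) P = 2 ^ j * f i P := fun j => by
      induction j with
      | zero => simp
      | succ j ih =>
        obtain ⟨P', hP'⟩ := hq.ex (g * UU (X ^ (i + j + 1)))
        have a := hq.gen _ (f (i + j)) (i + j) _ (inv (i + j)) (Or.inl (by omega)) P P' g hg hP'
        have b := step g (i + j)
        simp only [E] at b
        rw [← hf _ _ _ hg, ← hf _ _ _ hg, ← hf _ _ _ hP', a, ih] at b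
        rw [← add_assoc, b]
        ring
    by_contra hne
    have k : f (i + (dd T 1 (r0 T (pp * qq) μ) + 1)) P ≠ 0 := by
      rw [two]; exact mul_ne_zero (pow_ne_zero _ two_ne_zero) hne
    rw [hf _ _ _ hg] at k
    obtain ⟨γ, hγ⟩ := api.far _ _ _ _ (by
      rw [t.inv, ← v_succ hm]
      simpa using (t.inv (vv T _) 1 _).trans (t.adj 2)) k
    have l := lowv hm (g⁻¹ * γ.1) (i + (dd T 1 (r0 T (pp * qq) μ) + 1))
    rw [← t.inv (rG T g) (vv T _), ← map_mul, mul_inv_cancel_left, t.comm (rG T g * _)] at l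
    rw [mul_one, r0_eq] at hγ
    omega

theorem rel_ex (T : C) (_hT : 1 < ‖T‖) (hp : PA) (ht : TREE T) (hm : PM T) (hq : PT) :
    ∃ ff : Gam0 (pp * qq) → ℕ → ℕ × ℕ → ℤ, (∀ μ, Rel T μ (ff μ)) ∧
      ∀ μ ν i P, ff (μ * ν) i P = ff μ i P + ff ν i P := by
  classical
  have api := hp _ (dd T) (st T) _ (r0 T (pp * qq)) ht.tree (hm.good0 _).2
  refine ⟨fun μ i P => if h : ∃ g, IsPt P g then Psi (dd T) (r0 T (pp * qq))
    (rG T h.choose * vv T i) (rG T h.choose * vv T (i + 1)) 1 (r0 T (pp * qq) μ) else 0,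
    fun μ i P g hg => ?_, fun μ ν i P => ?_⟩
  · have h : ∃ g, IsPt P g := ⟨g, hg⟩
    simp only [dif_pos h]
    rw [← api.inv ⟨_, hq.orb P _ g h.choose_spec hg⟩, r0_eq, ← mul_assoc, ← mul_assoc, ← map_mul,
      inv_mul_cancel_right]
  · by_cases h : ∃ g, IsPt P g
    · simp only [dif_pos h, api.hom]
    · simp only [dif_neg h, add_zero]

end Pool.Agent.MP_a88b1d_nt.H64
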